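import Mathlib

set_option autoImplicit false

namespace Pool.Agent.Results.MP_8fed12_co.CoreVersusTverbergHull

/-- Euclidean space of dimension `d`. -/
abbrev E (d : ℕ) := EuclideanSpace ℝ (Fin d)

/-- `D_τ(S)`: the points lying in all hulls `conv (S_i)` of some partition of `S` into `τ` parts
`S_i = {x ∈ S | f x = i}`. -/
def tverbergPoints {d : ℕ} (τ : ℕ) (S : Finset (E d)) : Set (E d) :=
  {p | ∃ f : E d → Fin τ, ∀ i : Fin τ, p ∈ convexHull ℝ {x : E d | x ∈ S ∧ f x = i}}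

/-- the `σ`-core of `S` -/
def core {d : ℕ} (σ : ℕ) (S : Finset (E d)) : Set (E d) :=
  {p | ∀ T : Finset (E d), T ⊆ S → T.card ≤ σ → p ∈ convexHull ℝ {x : E d | x ∈ S ∧ x ∉ T}}

/-- the integer coordinates of the nine points -/
def Z : Fin 9 → Fin 3 → ℤ :=
  ![![0, -1, 1], ![-1, 0, 0], ![-1, 1, -2], ![2, 1, -1], ![-2, -1, -2], ![0, 1, -2],
    ![2, -2, 0], ![2, 0, 2], ![-1, 2, 0]]

/-- the nine points -/
noncomputable def P (i : Fin 9) : E 3 := WithLp.toLp 2 (fun j => (Z i j : ℝ))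

lemma P_apply (i : Fin 9) (j : Fin 3) : P i j = (Z i j : ℝ) := rfl

lemma P_inj : Function.Injective P := by
  intro i j h
  have h1 : Z i = Z j := by
    funext k
    have := congrArg (fun x : E 3 => x k) h
    simpa [P_apply] using this
  clear h
  revert h1
  revert i j
  decide

noncomputable def S : Finset (E 3) := Finset.univ.map ⟨P, P_inj⟩

lemma mem_S {x : E 3} : x ∈ S ↔ ∃ i, P i = x := by
  simp [S]

/-- the linear form with integer coefficients `n` -/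
noncomputable def form (n : Fin 3 → ℤ) : E 3 →ₗ[ℝ] ℝ :=
  { toFun := fun x => n 0 * x 0 + n 1 * x 1 + n 2 * x 2
    map_add' := by intro x y; simp; ring
    map_smul' := by intro r x; simp; ring }

lemma form_apply (n : Fin 3 → ℤ) (x : E 3) : form n x = n 0 * x 0 + n 1 * x 1 + n 2 * x 2 := rfl

def dotZ (n : Fin 3 → ℤ) (i : Fin 9) : ℤ := n 0 * Z i 0 + n 1 * Z i 1 + n 2 * Z i 2

lemma form_P (n : Fin 3 → ℤ) (i : Fin 9) : form n (P i) = (dotZ n i : ℝ) := by
  rw [form_apply, P_apply, P_apply, P_apply, dotZ]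
  push_cast
  ring

/-- A point in the hull of a part is given by weights. -/
lemma exists_weights (f : E 3 → Fin 3) (i : Fin 3) (p : E 3)
    (h : p ∈ convexHull ℝ {x : E 3 | x ∈ S ∧ f x = i}) :
    ∃ w : Fin 9 → ℝ, (∀ j, 0 ≤ w j) ∧ (∀ j, w j ≠ 0 → f (P j) = i) ∧ ∑ j, w j = 1 ∧
      ∑ j, w j • P j = p := by
  classical
  have hs : {x : E 3 | x ∈ S ∧ f x = i} = ((Finset.univ.filter fun j => f (P j) = i).image P : Finset (E 3)) := by
    ext x
    simp only [Set.mem_setOf_eq, mem_S, Finset.coe_image, Finset.coe_filter, Finset.mem_univ,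
      true_and, Set.mem_image]
    constructor
    · rintro ⟨⟨j, rfl⟩, hj⟩; exact ⟨j, hj, rfl⟩
    · rintro ⟨j, hj, rfl⟩; exact ⟨⟨j, rfl⟩, hj⟩
  rw [hs, Finset.mem_convexHull'] at h
  obtain ⟨v, hv0, hv1, hvp⟩ := h
  refine ⟨fun j => if f (P j) = i then v (P j) else 0, ?_, ?_, ?_, ?_⟩
  · intro j
    dsimp only
    split_ifs with hj
    · exact hv0 _ (Finset.mem_image.mpr ⟨j, by simpa using hj, rfl⟩)
    · exact le_rfl
  · intro j hj
    by_contra hne
    exact hj (if_neg hne)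
  · rw [← hv1, Finset.sum_image (fun a _ b _ hab => P_inj hab), Finset.sum_filter]
  · rw [← hvp, Finset.sum_image (fun a _ b _ hab => P_inj hab), Finset.sum_filter]
    refine Finset.sum_congr rfl fun j _ => ?_
    by_cases hj : f (P j) = i <;> simp [hj]

def n1 : Fin 3 → ℤ := ![0, -1, -1]
def n2 : Fin 3 → ℤ := ![1, -1, -1]
def n3 : Fin 3 → ℤ := ![0, 0, -1]

/-- For every class system and every form with only two negative points, one class is on the
nonnegative side. -/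
lemma class_nonneg (n : Fin 3 → ℤ) (a b : Fin 9) (hn : ∀ j, j ≠ a → j ≠ b → 0 ≤ dotZ n j)
    (f : E 3 → Fin 3) (p : E 3)
    (h : ∀ i : Fin 3, p ∈ convexHull ℝ {x : E 3 | x ∈ S ∧ f x = i}) :
    ∃ i : Fin 3, i ≠ f (P a) ∧ i ≠ f (P b) ∧ ∃ w : Fin 9 → ℝ, (∀ j, 0 ≤ w j) ∧
      (∀ j, w j ≠ 0 → f (P j) = i) ∧ ∑ j, w j = 1 ∧ ∑ j, w j • P j = p ∧
      ∀ j, 0 ≤ w j * (dotZ n j : ℝ) := by
  obtain ⟨i, hia, hib⟩ : ∃ i : Fin 3, i ≠ f (P a) ∧ i ≠ f (P b) := by
    generalize f (P a) = x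
    generalize f (P b) = y
    revert x y
    decide
  obtain ⟨w, hw0, hwf, hw1, hwp⟩ := exists_weights f i p (h i)
  refine ⟨i, hia, hib, w, hw0, hwf, hw1, hwp, fun j => ?_⟩
  by_cases hj : w j = 0
  · rw [hj]; simp
  · have hja : j ≠ a := by rintro rfl; exact hia (hwf _ hj).symm
    have hjb : j ≠ b := by rintro rfl; exact hib (hwf _ hj).symm
    exact mul_nonneg (hw0 j) (by exact_mod_cast hn j hja hjb)

lemma form_sum (n : Fin 3 → ℤ) (w : Fin 9 → ℝ) (p : E 3) (h : ∑ j, w j • P j = p) :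
    form n p = ∑ j, w j * (dotZ n j : ℝ) := by
  rw [← h, map_sum]
  refine Finset.sum_congr rfl fun j _ => ?_
  rw [map_smul, form_P, smul_eq_mul]

lemma form_nonneg (n : Fin 3 → ℤ) (a b : Fin 9) (hn : ∀ j, j ≠ a → j ≠ b → 0 ≤ dotZ n j)
    (p : E 3) (hp : p ∈ tverbergPoints 3 S) : 0 ≤ form n p := by
  obtain ⟨f, hf⟩ := hp
  obtain ⟨i, -, -, w, -, -, -, hwp, hnn⟩ := class_nonneg n a b hn f p hf
  rw [form_sum n w p hwp]
  exact Finset.sum_nonneg fun j _ => hnn j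

lemma h1 : ∀ j : Fin 9, j ≠ 7 → j ≠ 8 → 0 ≤ dotZ n1 j := by decide
lemma h2 : ∀ j : Fin 9, j ≠ 1 → j ≠ 8 → 0 ≤ dotZ n2 j := by decide
lemma h3 : ∀ j : Fin 9, j ≠ 0 → j ≠ 7 → 0 ≤ dotZ n3 j := by decide

/-- coordinates of the weighted sum -/
lemma coord (w : Fin 9 → ℝ) (p : E 3) (h : ∑ j, w j • P j = p) (k : Fin 3) :
    ∑ j, w j * (Z j k : ℝ) = p k := by
  rw [← h]
  simp [P_apply]

/-- The origin is not a Tverberg point. -/
lemma zero_not_mem : (0 : E 3) ∉ tverbergPoints 3 S := by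
  rintro ⟨f, hf⟩
  -- a class whose weights vanish off the plane `form n = 0`
  have key : ∀ (n : Fin 3 → ℤ) (a b : Fin 9), (∀ j, j ≠ a → j ≠ b → 0 ≤ dotZ n j) →
      ∃ i : Fin 3, ∃ w : Fin 9 → ℝ, (∀ j, 0 ≤ w j) ∧ (∀ j, w j ≠ 0 → f (P j) = i) ∧
        ∑ j, w j = 1 ∧ (∀ k, ∑ j, w j * (Z j k : ℝ) = 0) ∧ ∀ j, dotZ n j ≠ 0 → w j = 0 := by
    intro n a b hn
    obtain ⟨i, -, -, w, hw0, hwf, hw1, hwp, hnn⟩ := class_nonneg n a b hn f 0 hf
    refine ⟨i, w, hw0, hwf, hw1, fun k => by rw [coord w 0 hwp k]; rfl, fun j hj => ?_⟩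
    have hs := form_sum n w 0 hwp
    rw [map_zero] at hs
    have h0 := (Finset.sum_eq_zero_iff_of_nonneg (fun j _ => hnn j)).mp hs.symm j (Finset.mem_univ j)
    rcases mul_eq_zero.mp h0 with h | h
    · exact h
    · exact absurd (by exact_mod_cast h) hj
  obtain ⟨i1, w1, p1, f1, s1, c1, z1⟩ := key n1 7 8 h1
  obtain ⟨i2, w2, p2, f2, s2, c2, z2⟩ := key n2 1 8 h2
  obtain ⟨i3, w3, p3, f3, s3, c3, z3⟩ := key n3 0 7 h3
  -- class i1 contains 0,1,3
  have a1 : w1 2 = 0 := z1 2 (by decide)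
  have a2 : w1 4 = 0 := z1 4 (by decide)
  have a3 : w1 5 = 0 := z1 5 (by decide)
  have a4 : w1 6 = 0 := z1 6 (by decide)
  have a5 : w1 7 = 0 := z1 7 (by decide)
  have a6 : w1 8 = 0 := z1 8 (by decide)
  have b1 : w2 1 = 0 := z2 1 (by decide)
  have b2 : w2 3 = 0 := z2 3 (by decide)
  have b3 : w2 4 = 0 := z2 4 (by decide)
  have b4 : w2 5 = 0 := z2 5 (by decide)
  have b5 : w2 6 = 0 := z2 6 (by decide)
  have b6 : w2 8 = 0 := z2 8 (by decide)
  have d1 : w3 0 = 0 := z3 0 (by decide)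
  have d2 : w3 2 = 0 := z3 2 (by decide)
  have d3 : w3 3 = 0 := z3 3 (by decide)
  have d4 : w3 4 = 0 := z3 4 (by decide)
  have d5 : w3 5 = 0 := z3 5 (by decide)
  have d6 : w3 7 = 0 := z3 7 (by decide)
  have S9 : ∀ g : Fin 9 → ℝ, ∑ j, g j = g 0 + g 1 + g 2 + g 3 + g 4 + g 5 + g 6 + g 7 + g 8 := by
    intro g
    simp [Fin.sum_univ_succ]
    ring
  have cc1 := c1 0
  have cc1' := c1 1
  have cc1'' := c1 2
  have cc2 := c2 0
  have cc2' := c2 1
  have cc2'' := c2 2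
  have cc3 := c3 0
  have cc3' := c3 1
  have cc3'' := c3 2
  rw [S9] at s1 s2 s3 cc1 cc1' cc1'' cc2 cc2' cc2'' cc3 cc3' cc3''
  simp only [a1, a2, a3, a4, a5, a6] at s1 cc1 cc1' cc1''
  simp only [b1, b2, b3, b4, b5, b6] at s2 cc2 cc2' cc2''
  simp only [d1, d2, d3, d4, d5, d6] at s3 cc3 cc3' cc3''
  simp [Z] at cc1 cc1' cc1'' cc2 cc2' cc2'' cc3 cc3' cc3''
  have e10 : f (P 0) = i1 := f1 0 (by intro h; linarith)
  have e11 : f (P 1) = i1 := f1 1 (by intro h; linarith)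
  have e13 : f (P 3) = i1 := f1 3 (by intro h; linarith)
  have e20 : f (P 0) = i2 := f2 0 (by intro h; linarith)
  have e22 : f (P 2) = i2 := f2 2 (by intro h; linarith)
  have e27 : f (P 7) = i2 := f2 7 (by intro h; linarith)
  have e31 : f (P 1) = i3 := f3 1 (by intro h; linarith)
  have e36 : f (P 6) = i3 := f3 6 (by intro h; linarith)
  have e38 : f (P 8) = i3 := f3 8 (by intro h; linarith)
  have i12 : i1 = i2 := e10.symm.trans e20
  have i13 : i1 = i3 := e11.symm.trans e31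
  subst i12
  subst i13
  -- another class
  obtain ⟨i, hi⟩ : ∃ i : Fin 3, i ≠ i1 := by
    clear * -
    revert i1
    decide
  obtain ⟨w, hw0, hwf, hw1, hwp⟩ := exists_weights f i 0 (hf i)
  have zz : ∀ j, f (P j) = i1 → w j = 0 := by
    intro j hj
    by_contra hne
    exact hi ((hwf j hne).symm.trans hj)
  have y0 := zz 0 e10
  have y1 := zz 1 e11
  have y2 := zz 2 e22
  have y3 := zz 3 e13
  have y6 := zz 6 e36
  have y7 := zz 7 e27
  have y8 := zz 8 e38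
  have g0 := coord w 0 hwp 0
  have g1 := coord w 0 hwp 2
  rw [S9] at hw1 g0 g1
  simp only [y0, y1, y2, y3, y6, y7, y8] at hw1 g0 g1
  simp [Z] at g0 g1
  have := hw0 4
  have := hw0 5
  linarith

/-- the combined linear form is positive on all Tverberg points -/
lemma form_pos (p : E 3) (hp : p ∈ tverbergPoints 3 S) :
    0 < form n1 p + form n2 p + form n3 p := by
  have q1 := form_nonneg n1 7 8 h1 p hp
  have q2 := form_nonneg n2 1 8 h2 p hp
  have q3 := form_nonneg n3 0 7 h3 p hp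
  by_contra hcon
  have r1 : form n1 p = 0 := by linarith
  have r2 : form n2 p = 0 := by linarith
  have r3 : form n3 p = 0 := by linarith
  rw [form_apply] at r1 r2 r3
  simp [n1, n2, n3] at r1 r2 r3
  have hp0 : p = 0 := by
    ext k
    fin_cases k
    · simp; linarith
    · simp; linarith
    · simp; linarith
  exact zero_not_mem (hp0 ▸ hp)

lemma zero_not_mem_hull : (0 : E 3) ∉ convexHull ℝ (tverbergPoints 3 S) := by
  intro h
  have hsub : convexHull ℝ (tverbergPoints 3 S) ⊆ {x | 0 < (form n1 + form n2 + form n3) x} := by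
    refine convexHull_min (fun x hx => ?_) ?_
    · exact form_pos x hx
    · exact convex_halfSpace_gt (form n1 + form n2 + form n3).isLinear 0
  have := hsub h
  simp at this

/-- supports of the origin -/
def sup : Fin 6 → Fin 9 → ℕ :=
  ![![1, 2, 0, 1, 0, 0, 0, 0, 0], ![2, 0, 2, 0, 0, 0, 0, 1, 0], ![0, 1, 0, 0, 0, 0, 1, 0, 1],
    ![0, 0, 0, 2, 14, 0, 0, 15, 6], ![11, 0, 4, 3, 0, 0, 0, 0, 2], ![0, 1, 1, 0, 1, 0, 0, 2, 0]]

lemma sup_zero : ∀ (l : Fin 6) (k : Fin 3), ∑ j, (sup l j : ℤ) * Z j k = 0 := by decide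

lemma sup_pos : ∀ l : Fin 6, 0 < ∑ j, sup l j := by decide

lemma sup_avoid : ∀ a b : Fin 9, ∃ l : Fin 6, sup l a = 0 ∧ sup l b = 0 := by decide

lemma zero_mem_of_sup (l : Fin 6) (A : Set (E 3)) (hA : ∀ j, sup l j ≠ 0 → P j ∈ A) :
    (0 : E 3) ∈ convexHull ℝ A := by
  have hN : (0 : ℝ) < ((∑ j, sup l j : ℕ) : ℝ) := by exact_mod_cast sup_pos l
  have h := (convex_convexHull ℝ A).sum_mem (t := Finset.univ.filter fun j => sup l j ≠ 0)
    (w := fun j => (sup l j : ℝ) / ((∑ j, sup l j : ℕ) : ℝ)) (z := P)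
    (fun j _ => by positivity) (by
      rw [← Finset.sum_div, div_eq_one_iff_eq hN.ne', Finset.sum_filter]
      push_cast
      refine Finset.sum_congr rfl fun j _ => ?_
      by_cases hj : sup l j = 0
      · simp [hj]
      · simp [hj])
    (fun j hj => subset_convexHull ℝ A (hA j (by simpa using hj)))
  have e : ∑ j ∈ Finset.univ.filter (fun j => sup l j ≠ 0),
      ((sup l j : ℝ) / ((∑ j, sup l j : ℕ) : ℝ)) • P j = 0 := by
    rw [Finset.sum_filter]
    ext k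
    have hz := sup_zero l k
    have hz' : ∑ j, (sup l j : ℝ) * (Z j k : ℝ) = 0 := by exact_mod_cast hz
    have : (∑ j, if sup l j ≠ 0 then ((sup l j : ℝ) / ((∑ j, sup l j : ℕ) : ℝ)) • P j else 0 : E 3) k
        = (∑ j, (sup l j : ℝ) * (Z j k : ℝ)) / ((∑ j, sup l j : ℕ) : ℝ) := by
      rw [Finset.sum_div]
      have h5 : ∀ g : Fin 9 → E 3, (∑ j, g j) k = ∑ j, g j k := by
        intro g; simp
      rw [h5]
      refine Finset.sum_congr rfl fun j _ => ?_
      by_cases hj : sup l j = 0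
      · simp [hj]
      · rw [if_pos hj]
        simp only [PiLp.smul_apply, smul_eq_mul, P_apply]
        ring
    rw [this, hz']
    simp
  rw [e] at h
  exact h

lemma zero_mem_core : (0 : E 3) ∈ core 2 S := by
  classical
  intro T hT hTc
  obtain ⟨a, b, hab⟩ : ∃ a b : Fin 9, ∀ j, P j ∈ T → j = a ∨ j = b := by
    by_cases h0 : ∃ a, P a ∈ T
    · obtain ⟨a, ha⟩ := h0
      by_cases h1 : ∃ b, P b ∈ T ∧ b ≠ a
      · obtain ⟨b, hb, hba⟩ := h1
        refine ⟨a, b, fun j hj => ?_⟩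
        by_contra hcon
        push Not at hcon
        have : ({P a, P b, P j} : Finset (E 3)) ⊆ T := by
          intro x hx
          simp only [Finset.mem_insert, Finset.mem_singleton] at hx
          rcases hx with rfl | rfl | rfl <;> assumption
        have hc := Finset.card_le_card this
        rw [Finset.card_eq_three.mpr ⟨P a, P b, P j, fun h => hba (P_inj h).symm,
          fun h => hcon.1 (P_inj h).symm, fun h => hcon.2 (P_inj h).symm, rfl⟩] at hc
        omega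
      · push Not at h1
        exact ⟨a, a, fun j hj => Or.inl (h1 j hj)⟩
    · push Not at h0
      exact ⟨0, 0, fun j hj => absurd hj (h0 j)⟩
  obtain ⟨l, hla, hlb⟩ := sup_avoid a b
  refine zero_mem_of_sup l _ fun j hj => ⟨mem_S.mpr ⟨j, rfl⟩, fun hjT => ?_⟩
  rcases hab j hjT with rfl | rfl
  · exact hj hla
  · exact hj hlb

/-- `D_τ(S)` lies in the `(τ-1)`-core. -/
lemma tverberg_subset_core {d : ℕ} (τ : ℕ) (S : Finset (E d)) :
    convexHull ℝ (tverbergPoints (τ + 1) S) ⊆ core τ S := by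
  classical
  intro p hp T hT hTc
  refine convexHull_min (fun q hq => ?_) (convex_convexHull ℝ _) hp
  obtain ⟨f, hf⟩ := hq
  obtain ⟨i, hi⟩ : ∃ i : Fin (τ + 1), i ∉ T.image f := by
    by_contra hcon
    push Not at hcon
    have h1 : (Finset.univ : Finset (Fin (τ + 1))) ⊆ T.image f := fun i _ => hcon i
    have h2 := (Finset.card_le_card h1).trans Finset.card_image_le
    simp at h2
    omega
  have hsub : {x : E d | x ∈ S ∧ f x = i} ⊆ {x : E d | x ∈ S ∧ x ∉ T} := by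
    intro x hx
    refine ⟨hx.1, fun hxT => hi ?_⟩
    exact Finset.mem_image.mpr ⟨x, hxT, hx.2⟩
  exact convexHull_mono hsub (hf i)

lemma det_ne : ∀ a b c e : Fin 9, a < b → b < c → c < e →
    (Z b 0 - Z a 0) * ((Z c 1 - Z a 1) * (Z e 2 - Z a 2) - (Z c 2 - Z a 2) * (Z e 1 - Z a 1))
    - (Z b 1 - Z a 1) * ((Z c 0 - Z a 0) * (Z e 2 - Z a 2) - (Z c 2 - Z a 2) * (Z e 0 - Z a 0))
    + (Z b 2 - Z a 2) * ((Z c 0 - Z a 0) * (Z e 1 - Z a 1) - (Z c 1 - Z a 1) * (Z e 0 - Z a 0)) ≠ 0 := by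
  decide

/-- No plane contains four of the nine points. -/
lemma general_position (n : E 3) (hn : n ≠ 0) (r : ℝ) :
    ({x : E 3 | x ∈ S ∧ inner ℝ n x = r}).encard ≤ 3 := by
  classical
  by_contra hcon
  push Not at hcon
  set J : Finset (Fin 9) := Finset.univ.filter fun j => inner ℝ n (P j) = r with hJ
  have hset : {x : E 3 | x ∈ S ∧ inner ℝ n x = r} = ((J.image P : Finset (E 3)) : Set (E 3)) := by
    ext x
    simp only [Set.mem_setOf_eq, mem_S, Finset.coe_image, Set.mem_image, Finset.mem_coe, hJ,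
      Finset.mem_filter, Finset.mem_univ, true_and]
    constructor
    · rintro ⟨⟨j, rfl⟩, hj⟩; exact ⟨j, hj, rfl⟩
    · rintro ⟨j, hj, rfl⟩; exact ⟨⟨j, rfl⟩, hj⟩
  rw [hset, Set.encard_coe_eq_coe_finsetCard, Finset.card_image_of_injective _ P_inj] at hcon
  have hJ4 : 4 ≤ J.card := by
    have : (3 : ℕ) < J.card := by exact_mod_cast hcon
    omega
  let o := J.orderEmbOfCardLe hJ4
  have hm : ∀ k : Fin 4, inner ℝ n (P (o k)) = r := by
    intro k
    have := J.orderEmbOfCardLe_mem hJ4 k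
    simpa [hJ] using this
  have l01 : o 0 < o 1 := o.strictMono (by decide)
  have l12 : o 1 < o 2 := o.strictMono (by decide)
  have l23 : o 2 < o 3 := o.strictMono (by decide)
  have hd := det_ne (o 0) (o 1) (o 2) (o 3) l01 l12 l23
  have hin : ∀ x : E 3, inner ℝ n x = n 0 * x 0 + n 1 * x 1 + n 2 * x 2 := by
    intro x
    rw [PiLp.inner_apply, Fin.sum_univ_three]
    simp
    ring
  have m0 := hm 0
  have m1 := hm 1
  have m2 := hm 2
  have m3 := hm 3
  rw [hin, P_apply, P_apply, P_apply] at m0 m1 m2 m3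
  generalize o 0 = a at *
  generalize o 1 = b at *
  generalize o 2 = c at *
  generalize o 3 = e at *
  have hd' : ((Z b 0 : ℝ) - Z a 0) * (((Z c 1 : ℝ) - Z a 1) * ((Z e 2 : ℝ) - Z a 2) - ((Z c 2 : ℝ) - Z a 2) * ((Z e 1 : ℝ) - Z a 1))
    - ((Z b 1 : ℝ) - Z a 1) * (((Z c 0 : ℝ) - Z a 0) * ((Z e 2 : ℝ) - Z a 2) - ((Z c 2 : ℝ) - Z a 2) * ((Z e 0 : ℝ) - Z a 0))
    + ((Z b 2 : ℝ) - Z a 2) * (((Z c 0 : ℝ) - Z a 0) * ((Z e 1 : ℝ) - Z a 1) - ((Z c 1 : ℝ) - Z a 1) * ((Z e 0 : ℝ) - Z a 0)) ≠ 0 := by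
    exact_mod_cast hd
  set u0 : ℝ := (Z b 0 : ℝ) - Z a 0
  set u1 : ℝ := (Z b 1 : ℝ) - Z a 1
  set u2 : ℝ := (Z b 2 : ℝ) - Z a 2
  set v0 : ℝ := (Z c 0 : ℝ) - Z a 0
  set v1 : ℝ := (Z c 1 : ℝ) - Z a 1
  set v2 : ℝ := (Z c 2 : ℝ) - Z a 2
  set t0 : ℝ := (Z e 0 : ℝ) - Z a 0
  set t1 : ℝ := (Z e 1 : ℝ) - Z a 1
  set t2 : ℝ := (Z e 2 : ℝ) - Z a 2
  have k1 : n 0 * u0 + n 1 * u1 + n 2 * u2 = 0 := by simp only [u0, u1, u2]; linarith
  have k2 : n 0 * v0 + n 1 * v1 + n 2 * v2 = 0 := by simp only [v0, v1, v2]; linarith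
  have k3 : n 0 * t0 + n 1 * t1 + n 2 * t2 = 0 := by simp only [t0, t1, t2]; linarith
  set D : ℝ := u0 * (v1 * t2 - v2 * t1) - u1 * (v0 * t2 - v2 * t0) + u2 * (v0 * t1 - v1 * t0)
  have e0 : D * n 0 = 0 := by
    simp only [D]
    linear_combination (v1 * t2 - v2 * t1) * k1 - (u1 * t2 - u2 * t1) * k2 + (u1 * v2 - u2 * v1) * k3
  have e1 : D * n 1 = 0 := by
    simp only [D]
    linear_combination -(v0 * t2 - v2 * t0) * k1 + (u0 * t2 - u2 * t0) * k2 - (u0 * v2 - u2 * v0) * k3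
  have e2 : D * n 2 = 0 := by
    simp only [D]
    linear_combination (v0 * t1 - v1 * t0) * k1 - (u0 * t1 - u1 * t0) * k2 + (u0 * v1 - u1 * v0) * k3
  apply hn
  ext k
  fin_cases k
  · exact (mul_eq_zero.mp e0).resolve_left hd'
  · exact (mul_eq_zero.mp e1).resolve_left hd'
  · exact (mul_eq_zero.mp e2).resolve_left hd'

/-- **Answer to Q1: no.** There are nine points in `ℝ³`, i.e. `(τ - 1) (d + 1) + 1` points with
`d = 3` and `τ = 3`, no four of them in a plane, for which `conv D_3(S)` is a proper subset of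
`core_2(S)`. -/
theorem result :
    ∃ S : Finset (E 3), S.card = (3 - 1) * (3 + 1) + 1 ∧
      (∀ n : E 3, n ≠ 0 → ∀ r : ℝ, ({x : E 3 | x ∈ S ∧ inner ℝ n x = r}).encard ≤ 3) ∧
      convexHull ℝ (tverbergPoints 3 S) ⊂ core (3 - 1) S := by
  refine ⟨S, by simp [S], fun n hn r => general_position n hn r, ?_⟩
  exact (Set.ssubset_iff_of_subset (tverberg_subset_core 2 S)).mpr
    ⟨0, zero_mem_core, zero_not_mem_hull⟩

end Pool.Agent.Results.MP_8fed12_co.CoreVersusTverbergHull
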